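import Pool.Agent.Helper93.FZ.St

/-!
# Project FZ (MP_953b28_co), module ENE
-/

set_option autoImplicit false

namespace Pool.Agent.Helper8.FZ

open Finset
open Pool.Agent.Helper93.FZ

private lemma tri {n : ℕ} (f : Fin n → Fin n → Fin n → ℝ) :
    ∑ t : Fin n × Fin n × Fin n, f t.1 t.2.1 t.2.2 = ∑ r, ∑ c, ∑ s, f r c s := by
  rw [Fintype.sum_prod_type]
  refine sum_congr rfl fun r _ => ?_
  rw [Fintype.sum_prod_type]

private lemma rot1 {n : ℕ} (f : Fin n → Fin n → Fin n → ℝ) :
    ∑ r, ∑ c, ∑ s, f r c s = ∑ c, ∑ s, ∑ r, f r c s := by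
  rw [sum_comm]
  exact sum_congr rfl fun c _ => sum_comm

private lemma rot2 {n : ℕ} (f : Fin n → Fin n → Fin n → ℝ) :
    ∑ r, ∑ c, ∑ s, f r c s = ∑ s, ∑ r, ∑ c, f r c s := by
  rw [sum_comm' (t' := univ) (s' := fun _ => univ) (by simp)]
  rw [rot1 fun c r s => f r c s]
  rw [sum_comm]

theorem hENE : StENE := by
  intro n k A B C X Y Z u v w hW hS
  have h1 : ∑ c, ∑ s, B c s * Y c s = ∑ r, ∑ c, A r c * X r c := by
    rw [sum_congr rfl fun c _ => hS.gC c, sum_comm]
  have h2 : ∑ s, ∑ r, C s r * Z s r = ∑ r, ∑ c, A r c * X r c := by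
    rw [sum_comm]
    exact sum_congr rfl fun r _ => (hS.gR r).symm
  refine ⟨h1, h2, ?_⟩
  have e1 : ∑ r, ∑ c, ∑ s, A r c * B c s * C s r * (X r c + Y c s + Z s r) =
      (n : ℝ) ^ 2 - ∑ r, u r := by
    have : ∀ r c, ∑ s, A r c * B c s * C s r * (X r c + Y c s + Z s r) = A r c := by
      intro r c
      calc ∑ s, A r c * B c s * C s r * (X r c + Y c s + Z s r) =
          A r c * ∑ s, B c s * C s r * (X r c + Y c s + Z s r) := by
            rw [mul_sum]; exact sum_congr rfl fun s _ => by ring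
        _ = A r c := by rw [hS.eA, mul_one]
    rw [sum_congr rfl fun r _ => sum_congr rfl fun c _ => this r c]
    rw [sum_congr rfl fun r _ => hW.rA r, sum_sub_distrib, sum_const, card_univ, Fintype.card_fin,
      nsmul_eq_mul]
    ring
  have e2 : ∑ r, ∑ c, ∑ s, A r c * B c s * C s r * (X r c + Y c s + Z s r) ^ 2 =
      3 * ∑ r, ∑ c, A r c * X r c := by
    have f1 : ∑ r, ∑ c, ∑ s, A r c * B c s * C s r * (X r c + Y c s + Z s r) * X r c =
        ∑ r, ∑ c, A r c * X r c := by
      refine sum_congr rfl fun r _ => sum_congr rfl fun c _ => ?_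
      calc ∑ s, A r c * B c s * C s r * (X r c + Y c s + Z s r) * X r c =
          A r c * X r c * ∑ s, B c s * C s r * (X r c + Y c s + Z s r) := by
            rw [mul_sum]; exact sum_congr rfl fun s _ => by ring
        _ = A r c * X r c := by rw [hS.eA, mul_one]
    have f2 : ∑ r, ∑ c, ∑ s, A r c * B c s * C s r * (X r c + Y c s + Z s r) * Y c s =
        ∑ r, ∑ c, A r c * X r c := by
      rw [rot1, ← h1]
      refine sum_congr rfl fun c _ => sum_congr rfl fun s _ => ?_
      calc ∑ r, A r c * B c s * C s r * (X r c + Y c s + Z s r) * Y c s =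
          B c s * Y c s * ∑ r, C s r * A r c * (Y c s + Z s r + X r c) := by
            rw [mul_sum]; exact sum_congr rfl fun r _ => by ring
        _ = B c s * Y c s := by rw [hS.eB, mul_one]
    have f3 : ∑ r, ∑ c, ∑ s, A r c * B c s * C s r * (X r c + Y c s + Z s r) * Z s r =
        ∑ r, ∑ c, A r c * X r c := by
      rw [rot2, ← h2]
      refine sum_congr rfl fun s _ => sum_congr rfl fun r _ => ?_
      calc ∑ c, A r c * B c s * C s r * (X r c + Y c s + Z s r) * Z s r =
          C s r * Z s r * ∑ c, A r c * B c s * (Z s r + X r c + Y c s) := by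
            rw [mul_sum]; exact sum_congr rfl fun c _ => by ring
        _ = C s r * Z s r := by rw [hS.eC, mul_one]
    have f4 : ∑ r, ∑ c, ∑ s, A r c * B c s * C s r * (X r c + Y c s + Z s r) ^ 2 =
        (∑ r, ∑ c, ∑ s, A r c * B c s * C s r * (X r c + Y c s + Z s r) * X r c) +
        (∑ r, ∑ c, ∑ s, A r c * B c s * C s r * (X r c + Y c s + Z s r) * Y c s) +
        ∑ r, ∑ c, ∑ s, A r c * B c s * C s r * (X r c + Y c s + Z s r) * Z s r := by
      simp only [← sum_add_distrib]
      refine sum_congr rfl fun r _ => sum_congr rfl fun c _ => sum_congr rfl fun s _ => ?_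
      ring
    rw [f4, f1, f2, f3]
    ring
  rw [← e1, ← e2, ← tri fun r c s => A r c * B c s * C s r * (X r c + Y c s + Z s r),
    ← tri fun r c s => A r c * B c s * C s r,
    ← tri fun r c s => A r c * B c s * C s r * (X r c + Y c s + Z s r) ^ 2]
  apply sum_sq_le_sum_mul_sum_of_sq_le_mul
  · intro t _
    exact mul_nonneg (mul_nonneg (hW.A0 _ _) (hW.B0 _ _)) (hW.C0 _ _)
  · intro t _
    exact mul_nonneg (mul_nonneg (mul_nonneg (hW.A0 _ _) (hW.B0 _ _)) (hW.C0 _ _)) (sq_nonneg _)
  · intro t _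
    apply le_of_eq
    ring

end Pool.Agent.Helper8.FZ
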